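import Pool.Agent.Helper72.PT.St

/-! PT: module G2 -/

open Finset

namespace Pool.Agent.Helper38.PT

open Pool.HW Pool.PL Pool.PT

section Basic

variable {α : Type}

theorem jn1_append (k l : List (List α × List α)) : jn1 (k ++ l) = jn1 k ++ jn1 l := by
  simp [jn1]

theorem jn2_append (k l : List (List α × List α)) : jn2 (k ++ l) = jn2 k ++ jn2 l := by
  simp [jn2]

theorem jn1_cons (g : List α × List α) (l : List (List α × List α)) :
    jn1 (g :: l) = g.1 ++ jn1 l := by
  simp [jn1]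

theorem jn2_cons (g : List α × List α) (l : List (List α × List α)) :
    jn2 (g :: l) = g.2 ++ jn2 l := by
  simp [jn2]

variable (S : Sys α)

theorem ht_jn1 (l : List (List α × List α)) :
    S.ht (jn1 l) = (l.map fun g => S.ht g.1).sum := by
  induction l with
  | nil => rfl
  | cons g l ih => rw [jn1_cons, S.ht_append, ih, List.map_cons, List.sum_cons]

theorem ht_jn (l : List (List α × List α)) (h : ∀ g ∈ l, S.IsJ g) :
    S.ht (jn2 l) = S.ht (jn1 l) := by
  induction l with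
  | nil => rfl
  | cons g l ih =>
    rw [jn1_cons, jn2_cons, S.ht_append, S.ht_append, ih fun g' hg' => h g' (by simp [hg']),
      (h g (by simp)).2.2.1]

theorem xx_jn (l : List (List α × List α)) :
    S.xx (jn1 l) + S.xx (jn2 l) = (l.map fun g => S.xx g.1 + S.xx g.2).sum := by
  induction l with
  | nil => rfl
  | cons g l ih =>
    rw [jn1_cons, jn2_cons, S.xx_append, S.xx_append, List.map_cons, List.sum_cons, ← ih]
    ring

theorem wt_jn (l : List (List α × List α)) :
    S.wt (jn1 l) * S.wt (jn2 l) = (l.map fun g => S.wt g.1 * S.wt g.2).prod := by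
  induction l with
  | nil => simp [jn1, jn2]
  | cons g l ih =>
    rw [jn1_cons, jn2_cons, S.wt_append, S.wt_append, List.map_cons, List.prod_cons, ← ih]
    ring

theorem length_le_jn1 (l : List (List α × List α)) (h : ∀ g ∈ l, S.IsJ g) :
    l.length ≤ S.ht (jn1 l) := by
  induction l with
  | nil => simp
  | cons g l ih =>
    rw [jn1_cons, S.ht_append, List.length_cons]
    have h1 := ih fun g' hg' => h g' (by simp [hg'])
    have h2 := (h g (by simp)).2.2.2.1
    omega

theorem jn1_mem (l : List (List α × List α)) (h : ∀ g ∈ l, S.IsJ g) :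
    ∀ p ∈ jn1 l, p ∈ S.P := by
  induction l with
  | nil => intro p hp; simp [jn1] at hp
  | cons g l ih =>
    intro p hp
    rw [jn1_cons, List.mem_append] at hp
    rcases hp with hp | hp
    · exact (h g (by simp)).1 p hp
    · exact ih (fun g' hg' => h g' (by simp [hg'])) p hp

theorem jn2_mem (l : List (List α × List α)) (h : ∀ g ∈ l, S.IsJ g) :
    ∀ p ∈ jn2 l, p ∈ S.P := by
  induction l with
  | nil => intro p hp; simp [jn2] at hp
  | cons g l ih =>
    intro p hp
    rw [jn2_cons, List.mem_append] at hp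
    rcases hp with hp | hp
    · exact (h g (by simp)).2.1 p hp
    · exact ih (fun g' hg' => h g' (by simp [hg'])) p hp

theorem ht_mem_le (l : List (List α × List α)) (g : List α × List α) (hg : g ∈ l) :
    S.ht g.1 ≤ S.ht (jn1 l) := by
  induction l with
  | nil => simp at hg
  | cons g' l ih =>
    rw [jn1_cons, S.ht_append]
    rcases List.mem_cons.1 hg with rfl | hg
    · omega
    · have := ih hg
      omega

theorem isJ_σ {g : List α × List α} (hg : S.IsJ g) : S.IsJ (g.1.map S.σ, g.2.map S.σ) := by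
  obtain ⟨h1, h2, h3, h4, h5⟩ := hg
  refine ⟨?_, ?_, ?_, ?_, ?_⟩
  · intro p hp
    obtain ⟨p', hp', rfl⟩ := List.mem_map.1 hp
    exact S.σ_mem p' (h1 p' hp')
  · intro p hp
    obtain ⟨p', hp', rfl⟩ := List.mem_map.1 hp
    exact S.σ_mem p' (h2 p' hp')
  · simpa using h3
  · simpa using h4
  · intro K K' hK hK' hh h1K
    rw [List.prefix_map_iff] at hK hK'
    obtain ⟨K1, hK1, rfl⟩ := hK
    obtain ⟨K1', hK1', rfl⟩ := hK'
    rw [S.ht_map_σ] at h1K hh ⊢
    rw [S.ht_map_σ] at hh ⊢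
    exact h5 K1 K1' hK1 hK1' hh h1K

end Basic

section Fibre

variable {α : Type} [DecidableEq α] (S : Sys α)

open Classical in
/-- the joint pieces with lists of length at most `y` -/
noncomputable def Jf (y : ℕ) : Finset (List α × List α) :=
  (lists S.P y ×ˢ lists S.P y).filter fun g => S.IsJ g

theorem mem_Jf {y : ℕ} {g : List α × List α} :
    g ∈ Jf S y ↔ (g.1.length ≤ y ∧ g.2.length ≤ y) ∧ S.IsJ g := by
  classical
  rw [Jf, mem_filter, mem_product, mem_lists, mem_lists]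
  constructor
  · rintro ⟨⟨⟨h1, _⟩, h2, _⟩, h3⟩
    exact ⟨⟨h1, h2⟩, h3⟩
  · rintro ⟨⟨h1, h2⟩, h3⟩
    exact ⟨⟨⟨h1, h3.1⟩, h2, h3.2.1⟩, h3⟩

open Classical in
/-- lists of joint pieces with total height `t` -/
noncomputable def Al (y n t : ℕ) : Finset (List (List α × List α)) :=
  (lists (Jf S y) n).filter fun l => l.length = n ∧ (l.map fun g => S.ht g.1).sum = t

open Classical in
/-- the positive ones -/
noncomputable def Ap (y n t : ℕ) : Finset (List (List α × List α)) :=
  (lists (Jf S y) n).filter fun l => l.length = n ∧ (l.map fun g => S.ht g.1).sum = t ∧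
    ∀ k, k <+: l → k ≠ [] → 0 < (k.map fun g => S.xx g.1 + S.xx g.2).sum

theorem fib (h2 : StSA2) (y n t : ℕ) :
    (∑ l ∈ Ap S y n t, S.wt (jn1 l) * S.wt (jn2 l)) * Real.sqrt ((n : ℝ) + 1) ≤
      ∑ l ∈ Al S y n t, S.wt (jn1 l) * S.wt (jn2 l) := by
  have h := h2 (List α × List α) (Jf S y) (fun g => S.wt g.1 * S.wt g.2)
    (fun g => S.xx g.1 + S.xx g.2) (fun g => S.ht g.1)
    (fun g => (g.1.map S.σ, g.2.map S.σ))
    (fun g => mul_nonneg (S.wt_nonneg _) (S.wt_nonneg _))
    (by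
      intro g hg
      rw [mem_Jf] at hg ⊢
      exact ⟨⟨by simpa using hg.1.1, by simpa using hg.1.2⟩, isJ_σ S hg.2⟩)
    (by
      intro g
      have hs : ∀ L : List α, (L.map S.σ).map S.σ = L := by
        intro L
        rw [List.map_map]
        conv_rhs => rw [← List.map_id L]
        exact List.map_congr_left fun p _ => S.σ_σ p
      simp only [hs])
    (by intro g; simp)
    (by intro g; simp; ring)
    (by intro g; simp)
    n t
  simp only [wt_jn]
  exact h

end Fibre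

section Main

variable {α : Type} [DecidableEq α] (S : Sys α)

/-- the defining properties of the decomposition into joint pieces -/
def IsDec (F : List α × List α → List (List α × List α) × List α × List α) : Prop :=
  ∀ q : List α × List α, (∀ p ∈ q.1, p ∈ S.P) → (∀ p ∈ q.2, p ∈ S.P) →
    (∀ g ∈ (F q).1, S.IsJ g) ∧ S.IsR ((F q).2.1, (F q).2.2) ∧
      q.1 = jn1 (F q).1 ++ (F q).2.1 ∧ q.2 = jn2 (F q).1 ++ (F q).2.2 ∧
      (F q).1.length = S.nc q.1 q.2

/-- last piece, rest, number of pieces, height without the last piece -/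
def key (F : List α × List α → List (List α × List α) × List α × List α)
    (q : List α × List α) : Option (List α × List α) × List α × List α × ℕ × ℕ :=
  ((F q).1.getLast?, (F q).2.1, (F q).2.2, (F q).1.length, S.ht (jn1 (F q).1.dropLast))

variable {S} in
theorem dec_unique (hJ : StJP) {F : List α × List α → List (List α × List α) × List α × List α}
    (hF : IsDec S F) {l : List (List α × List α)} {R R' : List α} (hl : ∀ g ∈ l, S.IsJ g)
    (hR : S.IsR (R, R')) (h1 : ∀ p ∈ R, p ∈ S.P) (h2 : ∀ p ∈ R', p ∈ S.P) :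
    F (jn1 l ++ R, jn2 l ++ R') = (l, R, R') := by
  have hq1 : ∀ p ∈ jn1 l ++ R, p ∈ S.P := by
    intro p hp
    rcases List.mem_append.1 hp with hp | hp
    · exact jn1_mem S l hl p hp
    · exact h1 p hp
  have hq2 : ∀ p ∈ jn2 l ++ R', p ∈ S.P := by
    intro p hp
    rcases List.mem_append.1 hp with hp | hp
    · exact jn2_mem S l hl p hp
    · exact h2 p hp
  obtain ⟨a1, a2, a3, a4, _⟩ := hF (jn1 l ++ R, jn2 l ++ R') hq1 hq2
  dsimp only at a3 a4
  have b1 : ∀ p ∈ (F (jn1 l ++ R, jn2 l ++ R')).2.1, p ∈ S.P := by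
    intro p hp
    apply hq1
    rw [a3]
    exact List.mem_append.2 (Or.inr hp)
  have b2 : ∀ p ∈ (F (jn1 l ++ R, jn2 l ++ R')).2.2, p ∈ S.P := by
    intro p hp
    apply hq2
    rw [a4]
    exact List.mem_append.2 (Or.inr hp)
  obtain ⟨c1, c2, c3⟩ := (hJ α S).2 _ l _ _ R R' a1 hl a2 hR b1 b2 h1 h2 a3.symm a4.symm
  exact Prod.ext c1 (Prod.ext c2 c3)

variable {S} in
theorem dec_eq {F : List α × List α → List (List α × List α) × List α × List α}
    (hF : IsDec S F) {y x : ℕ} {q : List α × List α} (hq : q ∈ S.LH y ×ˢ S.LH x)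
    {g : List α × List α} {R R' : List α} {n t : ℕ} (hk : key S F q = (some g, R, R', n, t)) :
    (∀ g' ∈ (F q).1.dropLast, S.IsJ g') ∧ S.IsJ g ∧ S.IsR (R, R') ∧ (∀ p ∈ R, p ∈ S.P) ∧
      (∀ p ∈ R', p ∈ S.P) ∧ q.1 = jn1 ((F q).1.dropLast ++ [g]) ++ R ∧
      q.2 = jn2 ((F q).1.dropLast ++ [g]) ++ R' ∧ n = (F q).1.dropLast.length + 1 ∧
      n = S.nc q.1 q.2 ∧ S.ht (jn1 (F q).1.dropLast) = t ∧
      y = t + S.ht g.1 + S.ht R ∧ x = t + S.ht g.1 + S.ht R' := by
  rw [mem_product, S.mem_LH, S.mem_LH] at hq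
  obtain ⟨⟨q1, q2⟩, q3, q4⟩ := hq
  obtain ⟨a1, a2, a3, a4, a5⟩ := hF q q1 q3
  simp only [key, Prod.mk.injEq] at hk
  obtain ⟨k1, k2, k3, k4, k5⟩ := hk
  have hl : (F q).1.dropLast ++ [g] = (F q).1 := List.dropLast_append_getLast? g k1
  have hg : g ∈ (F q).1 := by rw [← hl]; simp
  rw [k2] at a3
  rw [k3] at a4
  rw [k2, k3] at a2
  have hd : ∀ g' ∈ (F q).1.dropLast, S.IsJ g' := fun g' hg' => a1 g' (List.dropLast_subset _ hg')
  have e1 : S.ht (jn1 (F q).1) = t + S.ht g.1 := by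
    rw [← hl, jn1_append, S.ht_append, k5]
    simp [jn1]
  have e2 := ht_jn S _ a1
  refine ⟨hd, a1 g hg, a2, ?_, ?_, ?_, ?_, ?_, ?_, k5, ?_, ?_⟩
  · intro p hp
    apply q1
    rw [a3]
    exact List.mem_append.2 (Or.inr hp)
  · intro p hp
    apply q3
    rw [a4]
    exact List.mem_append.2 (Or.inr hp)
  · rw [hl]; exact a3
  · rw [hl]; exact a4
  · rw [← k4]
    conv_lhs => rw [← hl]
    simp
  · rw [← k4, a5]
  · rw [← q2, a3, S.ht_append, e1]
  · rw [← q4, a4, S.ht_append, e2, e1]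

variable {S} in
theorem mem_lists_Jf {y m : ℕ} {l : List (List α × List α)} (hl : ∀ g ∈ l, S.IsJ g)
    (hlen : l.length ≤ m) (hy : S.ht (jn1 l) ≤ y) : l ∈ lists (Jf S y) m := by
  rw [mem_lists]
  refine ⟨hlen, fun g hg => ?_⟩
  rw [mem_Jf]
  have h1 := ht_mem_le S l g hg
  have h2 := S.length_le_ht (hl g hg).1
  have h3 := S.length_le_ht (hl g hg).2.1
  have h4 := (hl g hg).2.2.1
  exact ⟨⟨by omega, by omega⟩, hl g hg⟩

open Classical in
theorem key_le (h2 : StSA2) (hJ : StJP)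
    {F : List α × List α → List (List α × List α) × List α × List α} (hF : IsDec S F)
    (y x : ℕ) (κ : Option (List α × List α) × List α × List α × ℕ × ℕ) :
    ∑ q ∈ (S.LH y ×ˢ S.LH x).filter (fun q => S.Good (x - 1) q.1 q.2 ∧ key S F q = κ),
      S.wt q.1 * S.wt q.2 ≤
    ∑ q ∈ (S.LH y ×ˢ S.LH x).filter (fun q => key S F q = κ),
      S.wt q.1 * S.wt q.2 / Real.sqrt (max (S.nc q.1 q.2 : ℝ) 1) := by
  obtain ⟨o, R, R', n, t⟩ := κ
  have hW : ∀ q : List α × List α, 0 ≤ S.wt q.1 * S.wt q.2 := fun q =>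
    mul_nonneg (S.wt_nonneg _) (S.wt_nonneg _)
  rcases o with _ | g
  · have h1 : ∀ q ∈ (S.LH y ×ˢ S.LH x).filter (fun q => key S F q = (none, R, R', n, t)),
        S.wt q.1 * S.wt q.2 / Real.sqrt (max (S.nc q.1 q.2 : ℝ) 1) = S.wt q.1 * S.wt q.2 := by
      intro q hq
      rw [mem_filter, mem_product, S.mem_LH, S.mem_LH] at hq
      obtain ⟨⟨⟨q1, _⟩, q3, _⟩, hk⟩ := hq
      obtain ⟨_, _, _, _, a5⟩ := hF q q1 q3
      simp only [key, Prod.mk.injEq] at hk
      have h0 : (F q).1 = [] := List.getLast?_eq_none_iff.1 hk.1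
      rw [h0, List.length_nil] at a5
      rw [← a5]
      simp
    rw [sum_congr rfl h1]
    refine sum_le_sum_of_subset_of_nonneg ?_ fun q _ _ => hW q
    intro q hq
    rw [mem_filter] at hq ⊢
    exact ⟨hq.1, hq.2.2⟩
  · by_cases hne : ((S.LH y ×ˢ S.LH x).filter
        (fun q => key S F q = (some g, R, R', n, t))).Nonempty
    swap
    · rw [not_nonempty_iff_eq_empty] at hne
      rw [hne, sum_empty]
      refine le_of_eq (sum_eq_zero fun q hq => ?_)
      exfalso
      have : q ∈ (S.LH y ×ˢ S.LH x).filter (fun q => key S F q = (some g, R, R', n, t)) := by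
        rw [mem_filter] at hq ⊢
        exact ⟨hq.1, hq.2.2⟩
      rw [hne] at this
      simp at this
    obtain ⟨q0, hq0⟩ := hne
    rw [mem_filter] at hq0
    obtain ⟨_, c2, c3, c4, c5, _, _, c8, _, _, c11, c12⟩ := dec_eq hF hq0.1 hq0.2
    obtain ⟨m, rfl⟩ : ∃ m, n = m + 1 := ⟨_, c8⟩
    set c : ℝ := S.wt g.1 * S.wt g.2 * (S.wt R * S.wt R') with hc
    have hc0 : 0 ≤ c := mul_nonneg (mul_nonneg (S.wt_nonneg _) (S.wt_nonneg _))
      (mul_nonneg (S.wt_nonneg _) (S.wt_nonneg _))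
    -- upper bound for the good pairs
    have hup : ∑ q ∈ (S.LH y ×ˢ S.LH x).filter (fun q => S.Good (x - 1) q.1 q.2 ∧
        key S F q = (some g, R, R', m + 1, t)), S.wt q.1 * S.wt q.2 ≤
        c * ∑ l ∈ Ap S y m t, S.wt (jn1 l) * S.wt (jn2 l) := by
      have e1 : ∀ q ∈ (S.LH y ×ˢ S.LH x).filter (fun q => S.Good (x - 1) q.1 q.2 ∧
          key S F q = (some g, R, R', m + 1, t)), S.wt q.1 * S.wt q.2 =
          c * (S.wt (jn1 (F q).1.dropLast) * S.wt (jn2 (F q).1.dropLast)) := by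
        intro q hq
        rw [mem_filter] at hq
        obtain ⟨_, _, _, _, _, d6, d7, _⟩ := dec_eq hF hq.1 hq.2.2
        rw [hc]
        conv_lhs => rw [d6, d7]
        rw [jn1_append, jn2_append]
        simp only [S.wt_append, jn1_cons, jn2_cons]
        simp only [jn1, jn2, List.map_nil, List.flatten_nil, S.wt_nil]
        ring
      rw [sum_congr rfl e1, ← mul_sum]
      refine mul_le_mul_of_nonneg_left ?_ hc0
      have hinj : Set.InjOn (fun q : List α × List α => (F q).1.dropLast)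
          ((S.LH y ×ˢ S.LH x).filter (fun q => S.Good (x - 1) q.1 q.2 ∧
          key S F q = (some g, R, R', m + 1, t)) : Finset (List α × List α)) := by
        intro q hq q' hq' hqq
        rw [mem_coe, mem_filter] at hq hq'
        dsimp only at hqq
        obtain ⟨_, _, _, _, _, d6, d7, _⟩ := dec_eq hF hq.1 hq.2.2
        obtain ⟨_, _, _, _, _, d6', d7', _⟩ := dec_eq hF hq'.1 hq'.2.2
        apply Prod.ext
        · rw [d6, d6', hqq]
        · rw [d7, d7', hqq]
      rw [← sum_image (f := fun l => S.wt (jn1 l) * S.wt (jn2 l)) hinj]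
      refine sum_le_sum_of_subset_of_nonneg ?_ fun l _ _ =>
        mul_nonneg (S.wt_nonneg _) (S.wt_nonneg _)
      intro l hl
      rw [mem_image] at hl
      obtain ⟨q, hq, rfl⟩ := hl
      rw [mem_filter] at hq
      obtain ⟨d1, d2, d3, d4, d5, d6, d7, d8, d9, d10, d11, d12⟩ := dec_eq hF hq.1 hq.2.2
      have hlen : (F q).1.dropLast.length = m := by omega
      rw [Ap, mem_filter]
      refine ⟨mem_lists_Jf d1 (by omega) (by omega), hlen, ?_, ?_⟩
      · rw [← ht_jn1, d10]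
      · intro k hk hk0
        rw [← xx_jn]
        obtain ⟨s, hs⟩ := hk
        have hkJ : ∀ g' ∈ k, S.IsJ g' := fun g' hg' => d1 g' (by rw [← hs]; simp [hg'])
        have hkl := length_le_jn1 S k hkJ
        have hk1 := List.length_pos_iff.2 hk0
        have hkt : S.ht (jn1 k) ≤ t := by
          rw [← d10, ← hs, jn1_append, S.ht_append]
          omega
        have hg1 := d2.2.2.2.1
        refine hq.2.1 (jn1 k) (jn2 k) ?_ ?_ (ht_jn S k hkJ).symm (by omega) (by omega)
        · rw [d6, ← hs, jn1_append, jn1_append, List.append_assoc, List.append_assoc]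
          exact List.prefix_append _ _
        · rw [d7, ← hs, jn2_append, jn2_append, List.append_assoc, List.append_assoc]
          exact List.prefix_append _ _
    -- lower bound for all pairs
    have hlo : c * ∑ l ∈ Al S y m t, S.wt (jn1 l) * S.wt (jn2 l) ≤
        ∑ q ∈ (S.LH y ×ˢ S.LH x).filter (fun q => key S F q = (some g, R, R', m + 1, t)),
          S.wt q.1 * S.wt q.2 := by
      have hAl : ∀ l ∈ Al S y m t, (∀ g' ∈ l, S.IsJ g') ∧ l.length = m ∧ S.ht (jn1 l) = t := by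
        intro l hl
        rw [Al, mem_filter, mem_lists] at hl
        refine ⟨fun g' hg' => ((mem_Jf S).1 (hl.1.2 g' hg')).2, hl.2.1, ?_⟩
        rw [ht_jn1, hl.2.2]
      have hFl : ∀ l ∈ Al S y m t,
          F (jn1 (l ++ [g]) ++ R, jn2 (l ++ [g]) ++ R') = (l ++ [g], R, R') := by
        intro l hl
        refine dec_unique hJ hF ?_ c3 c4 c5
        intro g' hg'
        rcases List.mem_append.1 hg' with h | h
        · exact (hAl l hl).1 g' h
        · rw [List.mem_singleton.1 h]; exact c2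
      rw [mul_sum]
      have e1 : ∀ l ∈ Al S y m t, c * (S.wt (jn1 l) * S.wt (jn2 l)) =
          S.wt (jn1 (l ++ [g]) ++ R, jn2 (l ++ [g]) ++ R').1 *
            S.wt (jn1 (l ++ [g]) ++ R, jn2 (l ++ [g]) ++ R').2 := by
        intro l _
        dsimp only
        rw [jn1_append, jn2_append, hc]
        simp only [S.wt_append, jn1_cons, jn2_cons]
        simp only [jn1, jn2, List.map_nil, List.flatten_nil, S.wt_nil]
        ring
      rw [sum_congr rfl e1]
      have hinj : Set.InjOn (fun l : List (List α × List α) =>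
          (jn1 (l ++ [g]) ++ R, jn2 (l ++ [g]) ++ R')) (Al S y m t) := by
        intro l hl l' hl' hll
        dsimp only at hll
        have h1 := hFl l hl
        have h2 := hFl l' hl'
        rw [hll, h2] at h1
        have h3 := congrArg Prod.fst h1
        exact (List.append_cancel_right h3).symm
      rw [← sum_image (f := fun q : List α × List α => S.wt q.1 * S.wt q.2) hinj]
      refine sum_le_sum_of_subset_of_nonneg ?_ fun q _ _ => hW q
      intro q hq
      rw [mem_image] at hq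
      obtain ⟨l, hl, rfl⟩ := hq
      obtain ⟨b1, b2, b3⟩ := hAl l hl
      have b4 : ∀ g' ∈ l ++ [g], S.IsJ g' := by
        intro g' hg'
        rcases List.mem_append.1 hg' with h | h
        · exact b1 g' h
        · rw [List.mem_singleton.1 h]; exact c2
      have b5 : S.ht (jn1 (l ++ [g])) = t + S.ht g.1 := by
        rw [jn1_append, S.ht_append, b3]
        simp [jn1]
      rw [mem_filter, mem_product, S.mem_LH, S.mem_LH]
      refine ⟨⟨⟨?_, ?_⟩, ?_, ?_⟩, ?_⟩
      · intro p hp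
        rcases List.mem_append.1 hp with hp | hp
        · exact jn1_mem S _ b4 p hp
        · exact c4 p hp
      · rw [S.ht_append, b5]; exact c11.symm
      · intro p hp
        rcases List.mem_append.1 hp with hp | hp
        · exact jn2_mem S _ b4 p hp
        · exact c5 p hp
      · rw [S.ht_append, ht_jn S _ b4, b5]; exact c12.symm
      · rw [key, hFl l hl]
        simp [b2, b3]
    -- conclusion
    have e2 : ∀ q ∈ (S.LH y ×ˢ S.LH x).filter (fun q => key S F q = (some g, R, R', m + 1, t)),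
        S.wt q.1 * S.wt q.2 / Real.sqrt (max (S.nc q.1 q.2 : ℝ) 1) =
          S.wt q.1 * S.wt q.2 * (Real.sqrt ((m : ℝ) + 1))⁻¹ := by
      intro q hq
      rw [mem_filter] at hq
      obtain ⟨_, _, _, _, _, _, _, _, d9, _⟩ := dec_eq hF hq.1 hq.2
      rw [← d9, Nat.cast_add, Nat.cast_one, max_eq_left (by
        have : (0 : ℝ) ≤ m := Nat.cast_nonneg m
        linarith), div_eq_mul_inv]
    rw [sum_congr rfl e2, ← sum_mul]
    have hs : 0 < Real.sqrt ((m : ℝ) + 1) := Real.sqrt_pos.2 (by positivity)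
    rw [← div_eq_mul_inv, le_div_iff₀ hs]
    have h3 := fib S h2 y m t
    calc _ ≤ (c * ∑ l ∈ Ap S y m t, S.wt (jn1 l) * S.wt (jn2 l)) * Real.sqrt ((m : ℝ) + 1) :=
          mul_le_mul_of_nonneg_right hup hs.le
      _ = c * ((∑ l ∈ Ap S y m t, S.wt (jn1 l) * S.wt (jn2 l)) * Real.sqrt ((m : ℝ) + 1)) := by
          ring
      _ ≤ c * ∑ l ∈ Al S y m t, S.wt (jn1 l) * S.wt (jn2 l) := mul_le_mul_of_nonneg_left h3 hc0
      _ ≤ _ := hlo

end Main

/-- The weight of the good pairs is at most `√(2 u_y u_x D(y,x))`. -/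
theorem g2 (h2 : StSA2) (hJ : StJP) : StG2 := by
  classical
  intro α _ S y x
  have hF' : ∀ q : List α × List α, ∃ F : List (List α × List α) × List α × List α,
      (∀ p ∈ q.1, p ∈ S.P) → (∀ p ∈ q.2, p ∈ S.P) →
      (∀ g ∈ F.1, S.IsJ g) ∧ S.IsR (F.2.1, F.2.2) ∧
      q.1 = jn1 F.1 ++ F.2.1 ∧ q.2 = jn2 F.1 ++ F.2.2 ∧ F.1.length = S.nc q.1 q.2 := by
    intro q
    by_cases h : (∀ p ∈ q.1, p ∈ S.P) ∧ (∀ p ∈ q.2, p ∈ S.P)
    · obtain ⟨l, R, R', a1, a2, a3, a4, a5⟩ := (hJ α S).1 q.1 q.2 h.1 h.2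
      exact ⟨(l, R, R'), fun _ _ => ⟨a1, a2, a3, a4, a5⟩⟩
    · exact ⟨([], [], []), fun h1 h2 => absurd ⟨h1, h2⟩ h⟩
  choose F hF using hF'
  have hF : IsDec S F := hF
  have hW : ∀ q : List α × List α, 0 ≤ S.wt q.1 * S.wt q.2 := fun q =>
    mul_nonneg (S.wt_nonneg _) (S.wt_nonneg _)
  set Q := S.LH y ×ˢ S.LH x with hQ
  have hmax : ∀ q : List α × List α, 0 < max (S.nc q.1 q.2 : ℝ) 1 := fun q =>
    lt_of_lt_of_le one_pos (le_max_right _ _)
  have h1 : S.good y x (x - 1) ≤
      ∑ q ∈ Q, S.wt q.1 * S.wt q.2 / Real.sqrt (max (S.nc q.1 q.2 : ℝ) 1) := by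
    have e1 : S.good y x (x - 1) = ∑ q ∈ Q.filter (fun q => S.Good (x - 1) q.1 q.2),
        S.wt q.1 * S.wt q.2 := by
      unfold Sys.good
      rfl
    have e2 : ∑ q ∈ Q.filter (fun q => S.Good (x - 1) q.1 q.2), S.wt q.1 * S.wt q.2 =
        ∑ κ ∈ Q.image (key S F), ∑ q ∈ (Q.filter (fun q => S.Good (x - 1) q.1 q.2)).filter
          (fun q => key S F q = κ), S.wt q.1 * S.wt q.2 := by
      rw [sum_fiberwise_of_maps_to]
      intro q hq
      exact mem_image_of_mem _ (mem_filter.1 hq).1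
    have e3 : ∑ q ∈ Q, S.wt q.1 * S.wt q.2 / Real.sqrt (max (S.nc q.1 q.2 : ℝ) 1) =
        ∑ κ ∈ Q.image (key S F), ∑ q ∈ Q.filter (fun q => key S F q = κ),
          S.wt q.1 * S.wt q.2 / Real.sqrt (max (S.nc q.1 q.2 : ℝ) 1) := by
      rw [sum_fiberwise_of_maps_to]
      intro q hq
      exact mem_image_of_mem _ hq
    rw [e1, e2, e3]
    refine sum_le_sum fun κ _ => ?_
    rw [filter_filter]
    exact key_le S h2 hJ hF y x κ
  have h3 : (∑ q ∈ Q, S.wt q.1 * S.wt q.2 / Real.sqrt (max (S.nc q.1 q.2 : ℝ) 1)) ^ 2 ≤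
      (∑ q ∈ Q, S.wt q.1 * S.wt q.2) *
        ∑ q ∈ Q, S.wt q.1 * S.wt q.2 / max (S.nc q.1 q.2 : ℝ) 1 := by
    refine sum_sq_le_sum_mul_sum_of_sq_eq_mul Q (fun q _ => hW q)
      (fun q _ => div_nonneg (hW q) (hmax q).le) fun q _ => ?_
    rw [div_pow, Real.sq_sqrt (hmax q).le]
    ring
  have h4 : ∑ q ∈ Q, S.wt q.1 * S.wt q.2 = S.u y * S.u x := by
    rw [hQ, sum_product, Sys.u, Sys.u, sum_mul_sum]
  have h5 : ∑ q ∈ Q, S.wt q.1 * S.wt q.2 / max (S.nc q.1 q.2 : ℝ) 1 ≤ 2 * S.Dn y x := by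
    rw [Sys.Dn, mul_sum]
    refine sum_le_sum fun q _ => ?_
    rw [mul_div_assoc', div_le_div_iff₀ (hmax q) (by positivity)]
    have h6 : (S.nc q.1 q.2 : ℝ) + 1 ≤ 2 * max (S.nc q.1 q.2 : ℝ) 1 := by
      have h7 := le_max_left (S.nc q.1 q.2 : ℝ) 1
      have h8 := le_max_right (S.nc q.1 q.2 : ℝ) 1
      linarith
    have h9 := mul_le_mul_of_nonneg_left h6 (hW q)
    linarith
  have h6 : S.good y x (x - 1) ^ 2 ≤
      (∑ q ∈ Q, S.wt q.1 * S.wt q.2 / Real.sqrt (max (S.nc q.1 q.2 : ℝ) 1)) ^ 2 :=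
    pow_le_pow_left₀ (S.good_nonneg _ _ _) h1 2
  have h7 : 0 ≤ S.u y * S.u x := mul_nonneg (S.u_nonneg _) (S.u_nonneg _)
  calc S.good y x (x - 1) ^ 2 ≤ _ := h6
    _ ≤ _ := h3
    _ ≤ (S.u y * S.u x) * (2 * S.Dn y x) := by
        rw [h4]
        exact mul_le_mul_of_nonneg_left h5 h7
    _ = 2 * S.u y * S.u x * S.Dn y x := by ring

end Pool.Agent.Helper38.PT
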